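import Pool.Agent.N876.CG.GenT
import Pool.Agent.W484.CK.Main

/-!
# Semisimplicity of the eigenvalue 1 of Frobenius on the étale homology of products with cyclic coverings branched along hyperplanes

Let `κ` be a finite field with `q = c ^ f` elements, and `𝒱` a class of smooth projective varieties over
`κ`, closed under products, with Chow groups `A` with rational coefficients and a Weil cohomology theory
`H` (framework of helper492 and helper484: `TheoryData`, `IsChow`, `IsWeil`). Let `X_i` be varieties in
`𝒱`, of any dimensions `n_i`, which are models of cyclic coverings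

  `w ^ N_i = ∏ l_{i,k} (x) ^ a_{i,k}`

of projective spaces, branched along hyperplanes `l_{i,k} = 0` over `κ`, with exponents prime to `N_i`,
where `N_i` divides `q - 1` (`IsModel`, see the definitions: the cohomology is generated by the
classes of cycles and a part `T`, pure of weight `n_i`, without invariants under the covering
group, for which the trace formula holds). Let `N` be a common multiple of the `N_i`, and `λ` an
integer such that `IsSmall N λ` holds: for every nonempty finite set `I` of indices and all `j_i` not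
divisible by `N_i` (`i ∈ I`) there is a `u` prime to `N` with
`∑_{i ∈ I} weight X_i (u j_i) + λ / 2 < ∑_{i ∈ I} (n_i / 2 + 1)`; here `weight X j` is the mean over the
orbit `j, c j, …, c ^ (f - 1) j` of the sum of the fractional parts of `j a_k / N_i`.

Let `U` be **any** variety over `κ` (open, singular, reducible), and `Z` a variety in `𝒱` (for example a
point). For `X` in `𝒱` let `R(X) = H^*(X̄) ⊗ H_*(Ū)`, the étale homology of `X × U` with coefficients `ℚ_ℓ`
(Künneth formula), and `R^n(X) = H_{2i}(X̄ × Ū, ℚ_ℓ(i))`, where `i = dim X + dim U - n`. On `R(X)` act the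
correspondences between the varieties in `𝒱`, by their cohomology classes, and `φ`, the geometric
Frobenius on `H_*(Ū)` twisted by `ℚ_ℓ(- dim U)`; the eigenvalue `1` of `Frob_q` on `H_{2i}(X̄ × Ū, ℚ_ℓ(i))` is
the eigenvalue `q ^ n` of `Φ = F_X ⊗ φ` on `R^n(X)`. Only these properties of `R` are used (`IsMixedTheory`).
Let `χ` be a nonzero polynomial with rational coefficients with `χ(φ) = 0`; its roots can be taken to be
the conjugates of the numbers `q ^ {dim U} / β`, where `β` are the eigenvalues of Frobenius on `H_c^*(Ū)`.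
We assume that the products `b` of the eigenvalues of Frobenius on `H(Z)` and the complex roots of `χ`
are of the form `|b| ^ 2 = q ^ j` (theorem of Deligne) and that
* either `λ = 0` and the cyclotomic polynomial of order `N` is irreducible over the field generated by
  the numbers `b` (for given `Z` and `U` this is true for all `N` prime to the discriminant of this field),
* or `Z × U` is of level `≤ λ`: the numbers `q ^ λ b / b̄` are algebraic integers. This is true if
  `dim Z + dim U ≤ λ`.

**Theorem.** Let `V` be the product of `Z` and of finitely many of the `X_i` (pairwise different), and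
`d = dim V - dim Z`.
* For every `i` **the eigenvalue `1` of Frobenius on `H_{2i}(V̄ × Ū, ℚ_ℓ(i))` is semisimple if and only if it
  is semisimple on `H_{2l}(Z̄ × Ū, ℚ_ℓ(l))` for all `l` with `i - d ≤ l ≤ i`**: `SS_i(V × U)` is equivalent to
  `SS_l(Z × U)`, `i - d ≤ l ≤ i`. So the question for `V × U` has the same answer as for `Z × U`; for `Z` a
  point, as for `U`.
* If `V = X_i × V'`, then there are finitely many algebraic cycles `D j` on `X_i`, which do not depend
  on `U`, such that the generalized eigenspace for the eigenvalue `1` for `V × U` is the direct sum of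
  the products of the `D j` with those for `V' × U`.

No conjecture is assumed, and nothing on `U` besides the condition on the numbers `b`. In particular
`SS_i(V × U)` holds for all `i` if `Z` is a point and `SS_l(U)` is known for all `l`, for example if `U` is
an open or singular curve, or an abelian variety.

Examples. (a) Let `X_i` be curves `y ^ N_i = ∏ (x - x_{i,k})` with `N_i` factors, of genus
`(N_i - 1) (N_i - 2) / 2`, for different prime numbers `N_i` dividing `c - 1`. Then `weight X_i j` is the
residue of `j` modulo `N_i`, and `IsSmall N 0` holds for the product `N` of the `N_i` (take `u` with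
`u j_i = 1` modulo `N_i`). (b) Let `X` be the variety `w ^ N = l_1 ⋯ l_N` of dimension `n = N - 2`, with
`N` hyperplanes in general position, for a prime number `N` dividing `c - 1` (the resolutions are
Calabi-Yau varieties). The weight for `u j = 1` is `1`, so `IsSmall N λ` holds for all `λ < n`: the
theorem applies to **all varieties `U` of dimension smaller than `dim X`**.

The proof: by the theorem of Stickelberger on Gauss sums and the product formula no product of
eigenvalues of the Frobenius on the parts `T` of several `X_i` and of a number `b` is a power of `q`. So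
the intersection pairing on the algebraic classes of `X_i` is not degenerate; let `D j`, `E j` be dual
systems of cycles on `X_i`, `p = ∑ E j × D j` the projector on `X_i × V'`, `P` a polynomial with
`P (F) H(X_i × V') ⊆ ∑ D j × H(V')`, and `Q (x)` the polynomial with the roots `q ^ n / ρ`, where `χ (ρ) = 0`.
Then `(1 - p) P (F) = 0` on `R(X_i × V')`; a power of `Q (F)` kills every generalized eigenvector of `Φ`
for `q ^ n`, and `P` and `Q` are prime to each other, so `1 - p` kills these vectors. The
decomposition commutes with `Φ` up to the factors `q ^ {deg D j}`.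

helper876; built on the library of the starting files (estimates of sums over hyperplane
arrangements by Gauss sums: helper528 and helpers 800, 883, 135, 563, 271, 540, 400, 999, 782, 605,
346; traces on eigenspaces: helper117; correspondences, nilpotence and the Kunneth formula: helpers
484, 492, 550; the idea to work relative to a scheme: helper156).
-/

set_option autoImplicit false

open Finset Polynomial CategoryTheory AlgebraicGeometry

namespace Pool.Agent.Results.MP_16ef92_ag.HyperplaneCoverings

open Pool.Agent.H914 Pool.Agent.H914.VarClass Pool.Agent.H914.VarClass.Obj Pool.Agent.W492.BB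
  Pool.Agent.W484.CK

/-- A cyclic covering `w ^ N = ∏ l_k (x) ^ a_k` of the projective space of dimension `n`, and a root of
unity `z`. -/
structure Covering (κ : Type) [Field κ] : Type where
  N : ℕ
  n : ℕ
  s : ℕ
  l : Fin s → Fin (n + 1) → κ
  a : Fin s → ℕ
  z : κ

/-- `z` has order `N ≥ 2`, the exponents are prime to `N` and their sum is divisible by `N`. -/
structure Covering.IsAdmissible {κ : Type} [Field κ] (X : Covering κ) : Prop where
  two_le : 2 ≤ X.N
  root : IsPrimitiveRoot X.z X.N
  coprime : ∀ k, (X.a k).Coprime X.N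
  dvd : X.N ∣ ∑ k, X.a k

/-- The value of the form `∏ l_k ^ a_k` at a vector with coordinates in `L`. -/
def Covering.value {κ : Type} [Field κ] (X : Covering κ) (L : Type) [Field L] [Algebra κ L]
    (x : Fin (X.n + 1) → L) : L :=
  ∏ k, (∑ t, algebraMap κ L (X.l k t) * x t) ^ X.a k

/-- The number of vectors over `L` where the form is not zero. -/
noncomputable def Covering.openCount {κ : Type} [Field κ] (X : Covering κ) (L : Type) [Field L]
    [Algebra κ L] : ℕ :=
  Set.ncard {x : Fin (X.n + 1) → L | X.value L x ≠ 0}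

/-- The number of vectors over `L` where the form is not zero and its power with the exponent
`(|L| - 1) / N` is `z ^ i`. -/
noncomputable def Covering.fixCount {κ : Type} [Field κ] (X : Covering κ) (L : Type) [Field L]
    [Fintype L] [Algebra κ L] (i : ℕ) : ℕ :=
  Set.ncard {x : Fin (X.n + 1) → L | X.value L x ≠ 0 ∧
    (X.value L x) ^ ((Fintype.card L - 1) / X.N) = algebraMap κ L X.z ^ i}

/-- `T` is the part without invariants of the cohomology of degree `n` of a smooth projective model
of the covering, with the Frobenius `Φ` and the generator `g` of the covering group. The trace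
of `Φ ^ [L : κ] g ^ i` is up to the sign the difference of the number of fixed points over the open
set `∏ l_k ≠ 0` of projective space (`N` points over each point where the form has the power residue
symbol `z ^ i`) and of the number of the points of this open set. -/
structure IsCyclicCovering {κ : Type} [Field κ] (X : Covering κ) {K T : Type} [Field K]
    [AddCommGroup T] [Module K T] (Φ g : Module.End K T) : Prop where
  commute : Commute Φ g
  order : g ^ X.N = 1
  invariants : ∀ t, g t = t → t = 0
  lefschetz : ∀ (L : Type) [Field L] [Fintype L] [Algebra κ L] (i : ℕ),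
    ((Fintype.card L : K) - 1) *
        ((-1) ^ X.n * LinearMap.trace K T (Φ ^ Module.finrank κ L * g ^ i)) =
      (X.N : K) * (X.fixCount L i : K) - (X.openCount L : K)

/-- The mean over `j, c j, …, c ^ (f - 1) j` of the sum of the fractional parts of `j a_k / N`. -/
def Covering.weight {κ : Type} [Field κ] (X : Covering κ) (c f j : ℕ) : ℚ :=
  (∑ k, ∑ t ∈ range f, (((j * X.a k * c ^ t) % X.N : ℕ) : ℚ)) / (f * X.N)

/-- The condition on the exponents. -/
def IsSmall {κ : Type} [Field κ] {ι : Type} (X : ι → Covering κ) (c f N lam : ℕ) : Prop :=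
  ∀ I : Finset ι, I.Nonempty → ∀ j : ι → ℕ, (∀ i ∈ I, ¬ (X i).N ∣ j i) →
    ∃ u : ℕ, u.Coprime N ∧
      ∑ i ∈ I, (X i).weight c f (u * j i) + (lam : ℚ) / 2 < ∑ i ∈ I, (((X i).n : ℚ) / 2 + 1)

/-- The space `H` is generated by the subspace `P` (the classes of algebraic cycles) and a subspace `T`
which is stable under `Φ` (the Frobenius) and `g` (a generator of the covering group), `T` is the part
without invariants (`IsCyclicCovering`), and pure of weight `n`. The complex numbers enter by an
embedding `τ` of the coefficient field. -/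
def IsCoveringCohomology {κ : Type} [Field κ] [Fintype κ] (C : Covering κ) {K H : Type} [Field K]
    [AddCommGroup H] [Module K H] (P : Submodule K H) (Φ g : Module.End K H) (τ : K →+* ℂ) : Prop :=
  ∃ (T : Submodule K H) (hΦ : ∀ t ∈ T, Φ t ∈ T) (hg : ∀ t ∈ T, g t ∈ T), P ⊔ T = ⊤ ∧
    IsCyclicCovering C (Φ.restrict hΦ) (g.restrict hg) ∧
    ∀ α, Module.End.HasEigenvalue (Φ.restrict hΦ) α → ‖τ α‖ ^ 2 = (Fintype.card κ : ℝ) ^ C.n

/-- The images of the eigenvalues of `Φ` under the embedding `τ` of the coefficient field. -/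
def eigenvalues {K H : Type} [Field K] [AddCommGroup H] [Module K H] (Φ : Module.End K H)
    (τ : K →+* ℂ) : Set ℂ :=
  {b | ∃ β : K, Φ.HasEigenvalue β ∧ τ β = b}

/-- The conditions on a set `B` of complex numbers: they are algebraic with `|b| ^ 2 = q ^ j`, and
either `lam = 0` and the cyclotomic polynomial of order `N` is irreducible over the field generated
by `B`, or `B` is of level at most `lam`. -/
def IsGoodBase (q N lam : ℕ) (B : Set ℂ) : Prop :=
  (∀ b ∈ B, IsAlgebraic ℚ b ∧ ∃ j : ℕ, ‖b‖ ^ 2 = (q : ℝ) ^ j) ∧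
    ((lam = 0 ∧ Irreducible (cyclotomic N (IntermediateField.adjoin ℚ B))) ∨
      ∀ b ∈ B, IsIntegral ℤ ((q : ℂ) ^ lam * b / starRingEnd ℂ b))

/-- An endomorphism of an algebra as a linear map. -/
def ofHom {K H : Type} [Field K] [Ring H] [Algebra K H] (g : H →ₐ[K] H) : Module.End K H :=
  g.toLinearMap

/-- `IsCoveringCohomology` for endomorphisms of an algebra. -/
def IsCoveringAlgebra {κ : Type} [Field κ] [Fintype κ] (C : Covering κ) {K H : Type} [Field K]
    [Ring H] [Algebra K H] (P : Submodule K H) (φ g : H →ₐ[K] H) (τ : K →+* ℂ) : Prop :=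
  IsCoveringCohomology C P (ofHom φ) (ofHom g) τ

/-- The images of the eigenvalues of an endomorphism of an algebra. -/
def eigenvaluesOf {K H : Type} [Field K] [Ring H] [Algebra K H] (φ : H →ₐ[K] H) (τ : K →+* ℂ) :
    Set ℂ :=
  eigenvalues (ofHom φ) τ

/-- The images under `τ` of the products of the eigenvalues of an endomorphism of an algebra and
the roots of the polynomial `χ`. -/
def productsOf {K H : Type} [Field K] [CharZero K] [Ring H] [Algebra K H] (φ : H →ₐ[K] H)
    (χ : ℚ[X]) (τ : K →+* ℂ) : Set ℂ :=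
  {b | ∃ β ρ : K, (ofHom φ).HasEigenvalue β ∧ aeval ρ χ = 0 ∧ τ (β * ρ) = b}

/-- The field `κ` has `c ^ f` elements, the coverings are admissible, `N` is a common multiple of
their degrees, and `IsSmall` holds. -/
structure IsSmallSystem {κ : Type} [Field κ] [Fintype κ] {ι : Type} (C : ι → Covering κ)
    (c f N lam : ℕ) : Prop where
  card : Fintype.card κ = c ^ f
  admissible : ∀ i, (C i).IsAdmissible
  pos : 0 < N
  dvd : ∀ i, (C i).N ∣ N
  small : IsSmall C c f N lam

section geometry

variable {κ : Type} [Field κ] {𝒱 : VarClass κ} {A : TheoryData.{0, 0, 0} 𝒱 ℚ} {K : Type} [Field K]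

/-- The span of the classes of cycles on `X`. -/
def cycleSpan (H : WeilTheoryData.{0, 0, 0} A K) (X : 𝒱.Obj) : Submodule K (H.A X) :=
  Submodule.span K {a | ∃ (i : ℕ) (z : A.A X), A.Deg i z ∧ a = H.cl z}

/-- `X`, with the Frobenius endomorphism `φ`, is a model of the covering `C`, with a generator `g` of
the covering group. -/
def IsModel [Fintype κ] (C : Covering κ) (H : WeilTheoryData.{0, 0, 0} A K) {X : 𝒱.Obj}
    (φ : X ⟶ X) (τ : K →+* ℂ) : Prop :=
  ∃ g : X ⟶ X, IsCoveringAlgebra C (cycleSpan H X) (H.pull φ) (H.pull g) τ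

/-- There is a divisor on `X` whose power with the exponent `dim X` is not zero in the cohomology. -/
def IsPolarized (H : WeilTheoryData.{0, 0, 0} A K) (X : 𝒱.Obj) : Prop :=
  ∃ D : A.A X, A.Deg 1 D ∧ H.cl D ^ X.dim ≠ 0

/-- The product `X i₁ × (X i₂ × (⋯ × Z))`. -/
noncomputable def productOf {ι : Type} (X : ι → 𝒱.Obj) (Z : 𝒱.Obj) : List ι → 𝒱.Obj
  | [] => Z
  | i :: L => (X i).prod (productOf X Z L)

/-- The sum of the dimensions of the `X i`. -/
def dimension {ι : Type} (X : ι → 𝒱.Obj) : List ι → ℕ
  | [] => 0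
  | i :: L => (X i).dim + dimension X L

/-- `F` is the Frobenius endomorphism of the varieties over `κ`, the varieties `X i` are models of the
coverings, and `Z` and the polynomial `χ` satisfy `IsGoodBase`. -/
structure IsCoveringSystem [Fintype κ] [CharZero K] {ι : Type} (C : ι → Covering κ) (N lam : ℕ)
    (H : WeilTheoryData.{0, 0, 0} A K) (τ : K →+* ℂ) (F : ∀ X : 𝒱.Obj, X ⟶ X) (X : ι → 𝒱.Obj)
    (Z : 𝒱.Obj) (χ : ℚ[X]) : Prop where
  standard : IsStandard H
  frobenius : ∀ X, IsFrobenius A (F X) (Fintype.card κ)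
  product : ∀ X Y, F (X.prod Y) = prodMap (F X) (F Y)
  model : ∀ i, IsModel (C i) H (F (X i)) τ
  polarized : ∀ i, IsPolarized H (X i)
  algebraic : ∀ b ∈ eigenvaluesOf (H.pull (F Z)) τ, IsAlgebraic ℚ b
  ne_zero : χ.coeff 0 ≠ 0
  base : IsGoodBase (Fintype.card κ) N lam (productsOf (H.pull (F Z)) χ τ)

/-- Homologically trivial correspondences of degree zero act as zero. -/
def IsHomological (H : WeilTheoryData.{0, 0, 0} A K) (R : MotivicData A) : Prop :=
  ∀ {X : 𝒱.Obj} (Γ : A.A (X.prod X)), A.Deg X.dim Γ → (∀ a : H.A X, H.act (H.cl Γ) a = 0) →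
    ∀ r : R.M X, R.app Γ r = 0

/-- The maps `φ` commute with the operation of correspondences. -/
def IsCommuting (R : MotivicData A) (φ : ∀ X, R.M X →ₗ[ℚ] R.M X) : Prop :=
  ∀ {X Y : 𝒱.Obj} (Γ : A.A (X.prod Y)) (r : R.M X), φ Y (R.app Γ r) = R.app Γ (φ X r)

/-- `χ (φ) r = 0`. -/
def IsKilled {M : Type} [AddCommGroup M] [Module ℚ M] (φ : M →ₗ[ℚ] M) (χ : ℚ[X]) (r : M) : Prop :=
  aeval φ χ r = 0

/-- `R` is a theory with correspondences with an endomorphism `φ` (the Frobenius on the étale
homology of a variety `U`), homologically trivial correspondences act as zero, `φ` preserves the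
degrees and commutes with correspondences, and `χ (φ)` is zero. -/
structure IsMixedTheory (H : WeilTheoryData.{0, 0, 0} A K) (R : MotivicData A)
    (φ : ∀ X, R.M X →ₗ[ℚ] R.M X) (χ : ℚ[X]) : Prop where
  motivic : IsMotivic R
  homological : IsHomological H R
  degree : ∀ {X : 𝒱.Obj} {n : ℤ} {r : R.M X}, R.Deg n r → R.Deg n (φ X r)
  comm : IsCommuting R φ
  root : ∀ {X : 𝒱.Obj} {n : ℤ} {r : R.M X}, R.Deg n r → IsKilled (φ X) χ r

/-- The Frobenius endomorphism `Φ` of `X × U`: the product of `φ` and of the Frobenius endomorphism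
of `X`. -/
noncomputable def frob (R : MotivicData A) (φ : ∀ X, R.M X →ₗ[ℚ] R.M X) (F : ∀ X : 𝒱.Obj, X ⟶ X)
    (X : 𝒱.Obj) : Module.End ℚ (R.M X) :=
  R.act (A.down (Obj.lift (F X) (𝟙 X)) 1) * φ X

/-- `Φ - q ^ n`. -/
noncomputable def defect (R : MotivicData A) (φ : ∀ X, R.M X →ₗ[ℚ] R.M X)
    (F : ∀ X : 𝒱.Obj, X ⟶ X) (q : ℕ) (X : 𝒱.Obj) (n : ℤ) : Module.End ℚ (R.M X) :=
  frob R φ F X - ((q : ℚ) ^ n) • 1

/-- The eigenvalue `q ^ n` of `Φ` on `R^n(X)` is semisimple: vectors in the kernel of
`(Φ - q ^ n) ^ 2` are in the kernel of `Φ - q ^ n`. -/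
def IsSemisimpleIn (R : MotivicData A) (φ : ∀ X, R.M X →ₗ[ℚ] R.M X) (F : ∀ X : 𝒱.Obj, X ⟶ X)
    (q : ℕ) (X : 𝒱.Obj) (n : ℤ) : Prop :=
  ∀ r : R.M X, R.Deg n r → (defect R φ F q X n ^ 2) r = 0 → defect R φ F q X n r = 0

/-- The subspaces of `R^n(X)` of the generalized eigenvectors of `Φ` for the eigenvalue `q ^ n`. -/
noncomputable def generalized (R : MotivicData A) (φ : ∀ X, R.M X →ₗ[ℚ] R.M X)
    (F : ∀ X : 𝒱.Obj, X ⟶ X) (q : ℕ) : MotivicData A where
  M := R.M
  group := R.group
  module := R.module
  gr X n := R.gr X n ⊓ Module.End.maxGenEigenspace (frob R φ F X) ((q : ℚ) ^ n)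
  act := R.act

/-- There are finitely many cycles `D j` on `X` such that for all theories `R` as in `IsMixedTheory`
(for all `φ` and all polynomials `χ` with roots in `B`) the generalized eigenvectors for the
eigenvalue `q ^ n` in `R^n (X × V)` are the sums of the products of the `D j` with the generalized
eigenvectors in `R^(n - deg D j) (V)`, in a unique way. -/
def Decomposes (H : WeilTheoryData.{0, 0, 0} A K) (F : ∀ X : 𝒱.Obj, X ⟶ X) (q : ℕ) (B : Set K)
    [CharZero K] (X V : 𝒱.Obj) : Prop :=
  ∃ (J : Type) (_ : Fintype J) (deg : J → ℕ) (D : J → A.A X), (∀ j, A.Deg (deg j) (D j)) ∧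
    ∀ (R : MotivicData A) (φ : ∀ X, R.M X →ₗ[ℚ] R.M X) (χ : ℚ[X]), χ.coeff 0 ≠ 0 →
      (∀ ρ : K, aeval ρ χ = 0 → ρ ∈ B) → IsMixedTheory H R φ χ →
        HasKunneth (generalized R φ F q) X V deg D

/-- The conclusions for the product `V` of the `X i` with `i ∈ L` and of `Z`. -/
structure Conclusions (H : WeilTheoryData.{0, 0, 0} A K) (F : ∀ X : 𝒱.Obj, X ⟶ X) (q : ℕ)
    (B : Set K) [CharZero K] {ι : Type} (X : ι → 𝒱.Obj) (Z : 𝒱.Obj) (R : MotivicData A)
    (φ : ∀ X, R.M X →ₗ[ℚ] R.M X) (L : List ι) : Prop where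
  semisimple : ∀ n : ℤ, IsSemisimpleIn R φ F q (productOf X Z L) n ↔
    ∀ l : ℤ, n - dimension X L ≤ l → l ≤ n → IsSemisimpleIn R φ F q Z l
  decomposes : ∀ i, i ∉ L → Decomposes H F q B (X i) (productOf X Z L)

end geometry

/-- **Semisimplicity of the eigenvalue 1 for products with cyclic coverings branched along
hyperplanes.** -/
theorem result (c : ℕ) [Fact c.Prime] (κ : Type) [Field κ] [Fintype κ] [CharP κ c] {ι : Type}
    (C : ι → Covering κ) (f N lam : ℕ) (hC : IsSmallSystem C c f N lam)
    {𝒱 : VarClass κ} (A : TheoryData.{0, 0, 0} 𝒱 ℚ) [IsChow A] {K : Type} [Field K]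
    [IsAlgClosed K] [CharZero K] (H : WeilTheoryData.{0, 0, 0} A K) [IsWeil H] (τ : K →+* ℂ)
    (F : ∀ X : 𝒱.Obj, X ⟶ X) (X : ι → 𝒱.Obj) (Z : 𝒱.Obj) (χ : ℚ[X])
    (h : IsCoveringSystem C N lam H τ F X Z χ) (R : MotivicData A)
    (φ : ∀ X, R.M X →ₗ[ℚ] R.M X) (hR : IsMixedTheory H R φ χ) (L : List ι) (hL : L.Nodup) :
    Conclusions H F (Fintype.card κ) {ρ : K | aeval ρ χ = 0} X Z R φ L := by
  obtain ⟨hf, hC, hN, hdN, hsmall⟩ := hC
  obtain ⟨hstd, hfrob, hprod, hmodel, hpol, halg, hχ0, hbase⟩ := h
  have hfin := hstd.finite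
  have hf0 : 0 < f := by
    rcases Nat.eq_zero_or_pos f with h | h
    · rw [h, pow_zero] at hf
      have := Fintype.one_lt_card (α := κ)
      omega
    · exact h
  choose g T' hσT hgT hT' hcov hpure using hmodel
  have hsmall' : ∀ I : Finset ι, I.Nonempty → Pool.Agent.N876.UV.SmallI c f N lam
      (fun i => (C i).N) (fun i => (C i).n) (fun i => (C i).s) (fun i => (C i).a) I := by
    intro I hI j hj
    obtain ⟨u, hu, hlt⟩ := hsmall I hI j hj
    refine ⟨u, hu, Pool.Agent.N876.UV.weight_conv' hf0 hN hdN I
      (fun i => ∑ k, ∑ t ∈ range f, (u * j i * (C i).a k * c ^ t) % (C i).N) ?_⟩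
    refine lt_of_le_of_lt (le_of_eq ?_) hlt
    congr 1
    refine sum_congr rfl fun i _ => ?_
    unfold Covering.weight
    push_cast
    rfl
  have hcov' : ∀ i, Pool.Agent.N876.TC.IsCov (C i).N (C i).l (C i).a (C i).z
      ((ofHom (H.pull (F (X i)))).restrict (hσT i)) ((ofHom (H.pull (g i))).restrict (hgT i)) :=
    fun i => ⟨(hcov i).commute, (hcov i).order, (hcov i).invariants,
      fun L _ _ _ t => (hcov i).lefschetz L t⟩
  have hres : ∀ SZ, Pool.Agent.N876.FL.OtherOK τ (Fintype.card κ) N lam SZ →
      Pool.Agent.N876.FL.NoResF (Fintype.card κ : K)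
        (fun i => {α | Module.End.HasEigenvalue
          ((ofHom (H.pull (F (X i)))).restrict (hσT i)) α}) SZ :=
    fun SZ hSZ => Pool.Agent.N876.FL.nores_cov hN (fun i => (hC i).two_le) hdN κ hf
      (fun i => (hC i).root) (fun i => (C i).l) (fun i => (C i).a) (fun i => (hC i).coprime) τ
      hcov' hsmall' hpure hSZ
  have htw : ∀ L : List ι, productOf X Z L = Pool.Agent.N876.CG.tw X Z L := by
    intro L
    induction L with
    | nil => rfl
    | cons i L ih => rw [productOf, Pool.Agent.N876.CG.tw, ih]
  have hdim : ∀ L : List ι, dimension X L = Pool.Agent.N876.CG.dims X L := by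
    intro L
    induction L with
    | nil => rfl
    | cons i L ih => rw [dimension, Pool.Agent.N876.CG.dims, ih]
  have hq0 : Fintype.card κ ≠ 0 := Fintype.card_ne_zero
  have hsys : Pool.Agent.N876.CG.Cr H F (Fintype.card κ) X Z
      (fun i => {α | Module.End.HasEigenvalue
          ((ofHom (H.pull (F (X i)))).restrict (hσT i)) α}) {ρ | aeval ρ χ = 0} :=
    { std := isStandard_bridge hstd
      one_lt := Fintype.one_lt_card
      frob := fun X => isFrobenius_bridge (hfrob X)
      prod := hprod
      cg := fun i => ⟨T' i, hσT i, hT' i, fun α hα => hα⟩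
      int := fun i α hα => Pool.Agent.N876.CG.int_cov hN (fun i => (hC i).two_le) hdN κ hf
        (fun i => (hC i).root) (fun i => (C i).l) (fun i => (C i).a) (fun i => (hC i).coprime) τ
        hcov' hsmall' hpure i α hα
      ne := fun i α hα h0 => by
        have h1 := hpure i α hα
        rw [h0, map_zero, norm_zero, zero_pow two_ne_zero] at h1
        have h2 : (0 : ℝ) < (Fintype.card κ : ℝ) := by exact_mod_cast Nat.pos_of_ne_zero hq0
        exact (pow_pos h2 _).ne h1
      intZ := fun β hβ => Pool.Agent.N876.CG.integral_of_emb τ (halg _ ⟨β, hβ, rfl⟩)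
      res := by
        have himg : (τ '' {γ | ∃ β ρ, (Pool.Agent.W484.CH.frob H (F Z)).HasEigenvalue β ∧
            ρ ∈ {ρ : K | aeval ρ χ = 0} ∧ γ = β * ρ}) = productsOf (H.pull (F Z)) χ τ := by
          ext b
          constructor
          · rintro ⟨_, ⟨β, ρ, hβ, hρ, rfl⟩, rfl⟩
            exact ⟨β, ρ, hβ, hρ, rfl⟩
          · rintro ⟨β, ρ, hβ, hρ, rfl⟩
            exact ⟨_, ⟨β, ρ, hβ, hρ, rfl⟩, rfl⟩
        refine hres _ ⟨?_, ?_⟩
        · rintro _ ⟨β, ρ, hβ, hρ, rfl⟩
          exact hbase.1 _ ⟨β, ρ, hβ, hρ, rfl⟩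
        · rcases hbase.2 with h | h
          · left
            rw [himg]
            exact h
          · right
            rintro _ ⟨β, ρ, hβ, hρ, rfl⟩
            exact h _ ⟨β, ρ, hβ, hρ, rfl⟩
      res1 := hres _ (Pool.Agent.N876.FL.otherOK_one τ _ _ _) }
  have hFr : ∀ X, Pool.Agent.W484.CH.IsFrobenius A (F X) (Fintype.card κ) := hsys.frob
  have hrel : ∀ (R : MotivicData A) (φ : ∀ X, R.M X →ₗ[ℚ] R.M X) (χ : ℚ[X]),
      IsMixedTheory H R φ χ → Pool.Agent.N876.CG.RelTheory
        (Pool.Agent.N876.CG.genT (toCorr R) φ F (Fintype.card κ)) φ F (Fintype.card κ) χ :=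
    fun R φ χ hR => Pool.Agent.N876.CG.genT_rel (toCorr_isCorrTheory hR.motivic) hR.comm hq0 hFr
      hprod hsys.std (fun X n t ht => hR.root ht)
  have hnil' : ∀ (R : MotivicData A) (φ : ∀ X, R.M X →ₗ[ℚ] R.M X) (χ : ℚ[X]),
      IsMixedTheory H R φ χ → ∀ V, Pool.Agent.N876.CG.NilT H
        (Pool.Agent.N876.CG.genT (toCorr R) φ F (Fintype.card κ)) V := by
    intro R φ χ hR V Γ hΓ h0
    refine ⟨1, ?_⟩
    rw [pow_one]
    exact LinearMap.ext fun r => hR.homological Γ hΓ h0 r
  have hssn : ∀ (V : 𝒱.Obj) (n : ℤ), IsSemisimpleIn R φ F (Fintype.card κ) V n ↔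
      ∀ t ∈ (Pool.Agent.N876.CG.genT (toCorr R) φ F (Fintype.card κ)).gr V n,
        Pool.Agent.N876.CG.Del (toCorr R) φ F (Fintype.card κ) V n t = 0 := by
    intro V n
    rw [← Pool.Agent.N876.CG.ss_iff (toCorr_isCorrTheory hR.motivic) hFr
      (fun X n t ht => hR.degree ht) V n]
    unfold IsSemisimpleIn
    refine forall_congr' fun r => forall_congr' fun _ => ?_
    rw [pow_two, Module.End.mul_apply]
    rfl
  refine ⟨fun n => ?_, fun i hi => ?_⟩
  · rw [htw L, hdim L, hssn]
    simp only [hssn]
    exact hsys.induct hpol (fun V n =>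
        ∀ t ∈ (Pool.Agent.N876.CG.genT (toCorr R) φ F (Fintype.card κ)).gr V n,
        Pool.Agent.N876.CG.Del (toCorr R) φ F (Fintype.card κ) V n t = 0)
      (Pool.Agent.N876.CG.genT (toCorr R) φ F (Fintype.card κ)) φ χ hχ0 (fun ρ hρ => hρ)
      (hrel R φ χ hR) (fun L => hnil' R φ χ hR _) (fun i V J _ deg D E h1 h2 n =>
        Pool.Agent.N876.CG.ss_step (toCorr_isCorrTheory hR.motivic) hR.comm hq0 hFr hprod hsys.std
          h1 h2 n) hL n
  · rw [htw L]
    obtain ⟨J, hJ, deg, D, E, h1, h2, h3⟩ := hsys.step hi hL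
    exact ⟨J, hJ, deg, D, h1.left, fun R φ χ hχ0 hχ hR =>
      h3 _ φ χ hχ0 hχ (hrel R φ χ hR) (hnil' R φ χ hR _)⟩

end Pool.Agent.Results.MP_16ef92_ag.HyperplaneCoverings
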