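import Pool.Agent.N536.FS.TMain

/-!
# A zero–one law for the semisimplicity of the eigenvalue 1 of Frobenius on étale homology

Let `k` be the field with `q` elements. For a variety `X` over `k` (separated, of finite type; it need be
neither smooth nor proper) the étale homology `H_(2 i)(\bar X, ℚ_ℓ(i))` is dual to the cohomology with
compact supports `H_c^(2 i)(\bar X, ℚ_ℓ(i))`; therefore `SS_i(X)`, the semisimplicity of the eigenvalue
`1` of Frobenius on `H_(2 i)(\bar X, ℚ_ℓ(i))`, is the semisimplicity of the eigenvalue `q ^ i` of the
geometric Frobenius on `H_c^(2 i)(\bar X, ℚ_ℓ)` (`SemisimpleAt`). Let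

* `t(X)` be the number of the Tate classes, that is, the sum over `i` of the dimensions of the
  eigenspaces for the eigenvalue `1` on `H_(2 i)(\bar X, ℚ_ℓ(i))`,
* `g(X)` be the number of the generalised Tate classes, that is, the sum over `i` of the
  multiplicities of the eigenvalue `1` on `H_(2 i)(\bar X, ℚ_ℓ(i))`.

So `t(X) ≤ g(X)`, with equality if and only if `SS_i(X)` holds for all `i`. Only the following properties
of the cohomology with compact supports are used (`IsKTheory`): `P` is a class of varieties which is
closed under products (for example all of them); on `P` the cohomology has finite dimension, Frobenius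
is invertible and respects the degrees, and the Künneth formula holds.

Theorem. (1) If `SS_i(X)` fails for some `i`, then `t(X^n) / g(X^n)` tends to zero.

(2) Consequently, if for some `ε > 0` at least `ε g(Y)` of the generalised Tate classes are Tate classes
(`t(Y) ≥ ε g(Y)`) for all `Y` in `P`, then `SS_i(Y)` holds for all `Y` in `P` and all `i`.

Proof. One writes `F = S exp(N)`, and chooses a basis of Jordan strings of `N` of given degrees and
eigenvalues. The generalised Tate classes of `X^n` have as a basis the `n`-tuples `g` of basis vectors for
which a sum in the group of the types (degree, eigenvalue) modulo Tate twists is zero, and the number of the Tate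
classes is the number of such tuples whose weights for `sl(2)` satisfy `∑ a ∈ {0, 1}`. If `SS_i(X)` fails,
there are basis vectors `p`, `p'` which are generalised Tate classes with `a(p) = a(p') + 2`. By
the lemma of Dickson each zero-sum tuple contains many disjoint zero-sum subtuples of bounded length;
replacing such a subtuple by entries `p` one sees by double counting that almost all zero-sum tuples
have many entries `p` or `p'`; for these an involution and the bound for the middle binomial
coefficient show that the condition `∑ a ∈ {0, 1}` is rarely true.
-/

set_option autoImplicit false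

open Module Filter Topology

namespace Pool.Agent.Results.MP_16ef92_ag.ZeroOneLawTateClasses

universe u v w

open Pool.Agent.N536.FS

/-- **The zero–one law for the Tate classes.** -/
theorem result {k : Type u} [Field k] {Ω : Type w} [Field Ω] [CharZero Ω] [IsAlgClosed Ω]
    {P : SVar.{u} k → Prop} {H : SVar.{u} k → FCoh.{v, w} Ω} (hH : IsKTheory SVar.prod P H)
    {q : ℕ} (hq : q ≠ 0) :
    (∀ X, P X →
      ((∀ j, (H X).SemisimpleAt q j) ↔ (H X).tateDim q = (H X).genTateDim q) ∧
      (¬ (∀ j, (H X).SemisimpleAt q j) →
        (∀ n, 0 < (H (powK SVar.prod X n)).genTateDim q) ∧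
        Tendsto (fun n : ℕ => ((H (powK SVar.prod X n)).tateDim q : ℝ) /
          (H (powK SVar.prod X n)).genTateDim q) atTop (𝓝 0))) ∧
    ∀ ε : ℝ, 0 < ε →
      (∀ X, P X → ε * (H X).genTateDim q ≤ (H X).tateDim q) →
      ∀ X, P X → ∀ j, (H X).SemisimpleAt q j :=
  tate_law hH hq

end Pool.Agent.Results.MP_16ef92_ag.ZeroOneLawTateClasses
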